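import Pool.Agent.P.MP_40718a_co.ABF.Glue

namespace Pool.Agent.Results.MP_40718a_co.AsymptoticCover

open Finset

/-- The degree of `v` in the edge set `C` of the multigraph `ends`; a loop counts twice. -/
def degree {V E : Type} [DecidableEq V] (ends : E → Sym2 V) (C : Finset E) (v : V) : ℕ :=
  (C.filter fun e => v ∈ ends e).card + (C.filter fun e => ends e = s(v, v)).card

/-- The spanning subgraph with edge set `F` is connected. -/
def ConnectedOn {V E : Type} (ends : E → Sym2 V) (F : Set E) : Prop :=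
  (SimpleGraph.fromEdgeSet (ends '' F)).Connected

/-- Connected and without cut edge. -/
def TwoEdgeConnected {V E : Type} (ends : E → Sym2 V) : Prop :=
  ConnectedOn ends Set.univ ∧ ∀ e, ConnectedOn ends {e}ᶜ

/-- Every finite 2-edge-connected multigraph has an `l`-cover by `k` even subgraphs. -/
def UniversalCover (k l : ℕ) : Prop :=
  ∀ (V E : Type) [Fintype V] [Fintype E] [DecidableEq V] [DecidableEq E] (ends : E → Sym2 V),
    TwoEdgeConnected ends →
    ∃ C : Fin k → Finset E, (∀ i v, Even (degree ends (C i) v)) ∧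
      ∀ e, (univ.filter fun i => e ∈ C i).card = l

open Pool.Agent.P.MP_40718a_co.ABF in
theorem cut_meets {V E : Type} [Fintype V] [Fintype E] [DecidableEq V] [DecidableEq E]
    {ends : E → Sym2 V} {s t : E → V} (h : ∀ e, ends e = s(s e, t e)) {F : Set E}
    (hF : ConnectedOn ends F) {X : Finset V} (h1 : X.Nonempty) (h2 : X ≠ univ) :
    ∃ e ∈ F, e ∈ cut s t X := by
  obtain ⟨a, ha⟩ := h1
  obtain ⟨b, hb⟩ : ∃ b, b ∉ X := by
    by_contra hc
    push Not at hc
    exact h2 (eq_univ_of_forall hc)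
  obtain ⟨w⟩ := hF.preconnected a b
  obtain ⟨d, -, hd1, hd2⟩ := w.exists_boundary_dart (X : Set V) ha hb
  obtain ⟨⟨e, he, hd⟩, -⟩ := (SimpleGraph.fromEdgeSet_adj _).1 d.adj
  refine ⟨e, he, mem_cut.2 ?_⟩
  rw [h e, Sym2.eq_iff] at hd
  have hd1' : d.toProd.1 ∈ X := hd1
  have hd2' : d.toProd.2 ∉ X := hd2
  rcases hd with ⟨h3, h4⟩ | ⟨h3, h4⟩ <;> rw [h3, h4] <;> tauto

open Pool.Agent.P.MP_40718a_co.ABF in
theorem lower : ∀ ε : ℝ, 0 < ε → ∃ k l : ℕ, 0 < k ∧ 0 < l ∧ (2 / 3 - ε) * k < l ∧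
    UniversalCover k l := by
  intro ε hε
  obtain ⟨k, l, hk, hl, h⟩ := main_ex (min ε (1 / 3)) (by positivity)
  have hk' : (0 : ℝ) < k := by exact_mod_cast hk
  have h1 : min ε (1 / 3) ≤ ε := min_le_left _ _
  have h2 : min ε (1 / 3) ≤ 1 / 3 := min_le_right _ _
  refine ⟨k, l, hk, ?_, by nlinarith, fun V E _ _ _ _ ends hG => ?_⟩
  · have : (0 : ℝ) < l := by nlinarith
    exact_mod_cast this
  have hst : ∀ e, ∃ p : V × V, ends e = s(p.1, p.2) := fun e => by
    induction ends e using Sym2.ind with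
    | h a b => exact ⟨(a, b), rfl⟩
  choose p hp using hst
  obtain ⟨C, hC, hcov⟩ := h V E (fun e => (p e).1) (fun e => (p e).2) (by
    intro X hX hX'
    obtain ⟨e, -, he⟩ := cut_meets hp hG.1 hX hX'
    obtain ⟨e', hne, he'⟩ := cut_meets hp (hG.2 e) hX hX'
    exact one_lt_card.2 ⟨e', he', e, he, hne⟩)
  refine ⟨C, fun i v => ?_, fun e => by rw [← cnt_eq]; exact hcov e⟩
  have : degree ends (C i) v = deg (fun e => (p e).1) (fun e => (p e).2) (C i) v := by
    rw [deg_eq_sum, degree, card_filter, card_filter, ← sum_add_distrib]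
    refine sum_congr rfl fun e _ => ?_
    rw [hp e]
    by_cases a : (p e).1 = v <;> by_cases b : (p e).2 = v <;>
      simp [a, b, Sym2.mem_iff, eq_comm (a := v), Prod.ext_iff]
  rw [this]; exact hC i v

theorem upper {k l : ℕ} (h : UniversalCover k l) : 3 * l ≤ 2 * k := by
  have hc : ∀ F : Set (Fin 3), F.Nonempty →
      ConnectedOn (fun _ : Fin 3 => s(true, false)) F := by
    rintro F ⟨e, he⟩
    have hadj : (SimpleGraph.fromEdgeSet ((fun _ : Fin 3 => s(true, false)) '' F)).Adj true false :=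
      (SimpleGraph.fromEdgeSet_adj _).2 ⟨⟨e, he, rfl⟩, by simp⟩
    refine ⟨fun a b => ?_⟩
    cases a <;> cases b
    · rfl
    · exact hadj.symm.reachable
    · exact hadj.reachable
    · rfl
  obtain ⟨C, hC, hl⟩ := h Bool (Fin 3) (fun _ => s(true, false))
    ⟨hc _ ⟨0, trivial⟩, fun e => hc _ ⟨e + 1, by fin_cases e <;> simp⟩⟩
  have h2 : ∀ i, (C i).card ≤ 2 := by
    intro i
    have h1 := hC i true
    have h3 : (C i).card ≤ 3 := by simpa using card_le_univ (C i)
    simp only [degree, Sym2.mem_iff, true_or, filter_true] at h1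
    rw [filter_false_of_mem (by simp), card_empty, add_zero, Nat.even_iff] at h1
    omega
  calc 3 * l = ∑ e : Fin 3, (univ.filter fun i => e ∈ C i).card := by simp [hl]
    _ = ∑ i, (C i).card := by
      simp only [card_filter]
      rw [sum_comm]
      refine sum_congr rfl fun i _ => ?_
      simp
    _ ≤ ∑ _i : Fin k, 2 := sum_le_sum fun i _ => h2 i
    _ = 2 * k := by simp [mul_comm]

/-- The supremum of `l / k` over universal `l`-covers by `k` even subgraphs is `2 / 3`. -/
theorem result :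
    IsLUB {r : ℝ | ∃ k l : ℕ, 0 < k ∧ 0 < l ∧ UniversalCover k l ∧ r = l / k} (2 / 3) := by
  constructor
  · rintro r ⟨k, l, hk, -, h, rfl⟩
    have h1 : (3 * l : ℝ) ≤ 2 * k := by exact_mod_cast upper h
    have hk' : (0 : ℝ) < k := by exact_mod_cast hk
    rw [div_le_iff₀ hk']; linarith
  · intro b hb
    refine le_of_forall_pos_le_add fun ε hε => ?_
    obtain ⟨k, l, hk, hl, h1, h2⟩ := lower ε hε
    have hk' : (0 : ℝ) < k := by exact_mod_cast hk
    have h3 := hb ⟨k, l, hk, hl, h2, rfl⟩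
    rw [div_le_iff₀ hk'] at h3
    have : (2 / 3 - ε) * k < b * k := h1.trans_le h3
    have := lt_of_mul_lt_mul_right this hk'.le
    linarith

end Pool.Agent.Results.MP_40718a_co.AsymptoticCover
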