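import Pool.Agent.P.MP_40718a_co.Bound
import Pool.Agent.P.MP_40718a_co.Surf

namespace Pool.Agent.Results.MP_40718a_co.SurfaceBound

open Pool.Agent.P.MP_40718a_co

/-- Connected, and still connected after deleting any one edge. -/
def TwoEdgeConnected {V : Type} (G : SimpleGraph V) : Prop :=
  G.Connected ∧ ∀ e ∈ G.edgeSet, (G.deleteEdges {e}).Connected

/-- A quadruple cover by six even subgraphs. -/
def HasCover {V : Type} (G : SimpleGraph V) : Prop :=
  ∃ S : Fin 6 → Set (Sym2 V),
    (∀ i, S i ⊆ G.edgeSet) ∧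
    (∀ (i : Fin 6) (v : V), Even (Set.ncard {e : Sym2 V | e ∈ S i ∧ v ∈ e})) ∧
    (∀ e ∈ G.edgeSet, Set.ncard {i : Fin 6 | e ∈ S i} = 4)

/-- A rotation system: a permutation of the darts whose cycles are the sets of darts with a
common initial vertex. -/
def IsRotation {V : Type} {G : SimpleGraph V} (ρ : Equiv.Perm G.Dart) : Prop :=
  ∀ d d' : G.Dart, ρ.SameCycle d d' ↔ d.fst = d'.fst

/-- Face tracing on flags (a dart with one of its two sides, `true` being the side towards the
next dart in the rotation): pass through a corner to the next dart, or run along the edge,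
where `tw` marks the twisted edges. -/
def FaceStep {V : Type} {G : SimpleGraph V} (ρ : Equiv.Perm G.Dart) (tw : Sym2 V → Bool)
    (x y : G.Dart × Bool) : Prop :=
  (x.2 = true ∧ y = (ρ x.1, false)) ∨ y = (x.1.symm, if tw x.1.edge then x.2 else !x.2)

/-- The Euler genus `2 - V + E - F` of the embedding given by rotation and signature. -/
noncomputable def eulerGenus {V : Type} (G : SimpleGraph V) (ρ : Equiv.Perm G.Dart)
    (tw : Sym2 V → Bool) : ℤ :=
  2 - (Nat.card V : ℤ) + (Nat.card G.edgeSet : ℤ) - (Nat.card (Quot (FaceStep ρ tw)) : ℤ)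

theorem result : ∀ (V : Type) [Fintype V] (G : SimpleGraph V) (ρ : Equiv.Perm G.Dart)
    (tw : Sym2 V → Bool), IsRotation ρ → TwoEdgeConnected G → ¬ HasCover G →
    ∃ (W : Type) (_ : Fintype W) (H : SimpleGraph W), TwoEdgeConnected H ∧
      (∀ w, (H.neighborSet w).ncard = 3) ∧ ¬ HasCover H ∧
      (Nat.card W : ℤ) ≤ 120 * (eulerGenus G ρ tw - 2) := by
  intro V _ G ρ tw hρ hG hC
  classical
  have h1 : ¬ (trunc ρ).Cover := fun h => hC (trunc_cover ρ hρ h)
  have : Nonempty G.Dart := by
    by_contra h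
    rw [not_nonempty_iff] at h
    exact h1 ⟨List.replicate 6 isEmptyElim, rfl, fun _ _ d => isEmptyElim d,
      fun d => isEmptyElim d⟩
  let _ := Fintype.ofFinite (Quot (FaceStep ρ tw))
  obtain ⟨g, h2, h3⟩ := trunc_fam ρ hρ hG.1 (Quot.mk (FaceStep ρ tw)) Quot.mk_surjective
    (fun d => (Quot.sound (r := FaceStep ρ tw) (a := (d, true)) (Or.inl ⟨rfl, rfl⟩)).symm)
    (fun d => by
      cases c : tw d.edge
      · exact Or.inr fun b => (Quot.sound (r := FaceStep ρ tw) (Or.inr (by simp [c]))).symm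
      · exact Or.inl fun b => (Quot.sound (r := FaceStep ρ tw) (Or.inr (by simp [c]))).symm)
  obtain ⟨W, _, _, H, hH⟩ := DG.exists_minF (trunc_bridgeless ρ hρ hG.2) h2 h1
  have hd := DG.simple_del hH.bl hH.multi hH.conn
  refine ⟨W, inferInstance, DG.simple hH.bl,
    ⟨(hd s(Classical.arbitrary W, Classical.arbitrary W)).mono (SimpleGraph.deleteEdges_le _),
      fun e _ => hd e⟩, DG.simple_deg hH.bl hH.multi,
    fun ⟨S, a1, a2, a3⟩ => hH.nocover (DG.simple_cover hH.bl hH.multi S a1 a2 a3), ?_⟩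
  have h4 := hH.bound
  rw [SimpleGraph.dart_card_eq_twice_card_edges, SimpleGraph.edgeFinset_card] at h3
  simp only [eulerGenus, Nat.card_eq_fintype_card]
  omega

end Pool.Agent.Results.MP_40718a_co.SurfaceBound
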