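import Pool.Agent.P.MP_40718a_co.U.Bound
import Pool.Agent.P.MP_40718a_co.U.Trunc

namespace Pool.Agent.Results.MP_40718a_co.SurfaceUniversal

open Pool.Agent.P.MP_40718a_co

/-- Connected, and still connected after deleting any one edge. -/
def TwoEdgeConnected {V : Type} (G : SimpleGraph V) : Prop :=
  G.Connected ∧ ∀ e ∈ G.edgeSet, (G.deleteEdges {e}).Connected

/-- `3 k` even subgraphs, repetitions allowed, covering every edge exactly `2 k` times. -/
def HasCover {V : Type} (G : SimpleGraph V) (k : ℕ) : Prop :=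
  ∃ S : Fin (3 * k) → Set (Sym2 V),
    (∀ i, S i ⊆ G.edgeSet) ∧
    (∀ (i : Fin (3 * k)) (v : V), Even (Set.ncard {e : Sym2 V | e ∈ S i ∧ v ∈ e})) ∧
    (∀ e ∈ G.edgeSet, Set.ncard {i : Fin (3 * k) | e ∈ S i} = 2 * k)

/-- A rotation system: a permutation of the darts whose cycles are the sets of darts with a
common initial vertex. -/
def IsRotation {V : Type} {G : SimpleGraph V} (ρ : Equiv.Perm G.Dart) : Prop :=
  ∀ d d' : G.Dart, ρ.SameCycle d d' ↔ d.fst = d'.fst

/-- Face tracing on flags (a dart with one of its two sides, `true` being the side towards the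
next dart in the rotation): pass through a corner to the next dart, or run along the edge,
where `tw` marks the twisted edges. -/
def FaceStep {V : Type} {G : SimpleGraph V} (ρ : Equiv.Perm G.Dart) (tw : Sym2 V → Bool)
    (x y : G.Dart × Bool) : Prop :=
  (x.2 = true ∧ y = (ρ x.1, false)) ∨ y = (x.1.symm, if tw x.1.edge then x.2 else !x.2)

/-- The Euler genus `2 - V + E - F` of the embedding given by rotation and signature. -/
noncomputable def eulerGenus {V : Type} (G : SimpleGraph V) (ρ : Equiv.Perm G.Dart)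
    (tw : Sym2 V → Bool) : ℤ :=
  2 - (Nat.card V : ℤ) + (Nat.card G.edgeSet : ℤ) - (Nat.card (Quot (FaceStep ρ tw)) : ℤ)

theorem result : ∀ g : ℕ, ∃ k : ℕ, 0 < k ∧ ∀ (V : Type) [Fintype V] (G : SimpleGraph V)
    (ρ : Equiv.Perm G.Dart) (tw : Sym2 V → Bool), IsRotation ρ → TwoEdgeConnected G →
    eulerGenus G ρ tw ≤ g → HasCover G k := by
  intro g
  obtain ⟨K, h0, hK⟩ := DG.universal g
  refine ⟨K, h0, fun V _ G ρ tw hρ hG hg => ?_⟩
  classical
  refine trunc_coverK ρ hρ ?_
  rcases isEmpty_or_nonempty G.Dart with h | h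
  · exact ⟨List.replicate (3 * K) isEmptyElim, by simp, fun _ _ d => isEmptyElim d,
      fun d => isEmptyElim d⟩
  let _ := Fintype.ofFinite (Quot (FaceStep ρ tw))
  obtain ⟨g', h2, h3⟩ := trunc_fam ρ hρ hG.1 (Quot.mk (FaceStep ρ tw)) Quot.mk_surjective
    (fun d => (Quot.sound (r := FaceStep ρ tw) (a := (d, true)) (Or.inl ⟨rfl, rfl⟩)).symm)
    (fun d => by
      cases c : tw d.edge
      · exact Or.inr fun b => (Quot.sound (r := FaceStep ρ tw) (Or.inr (by simp [c]))).symm
      · exact Or.inl fun b => (Quot.sound (r := FaceStep ρ tw) (Or.inr (by simp [c]))).symm)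
  refine hK _ _ (trunc_bridgeless ρ hρ hG.2) (h2.mono (Nat.pow_le_pow_right (by norm_num) ?_))
  rw [SimpleGraph.dart_card_eq_twice_card_edges, SimpleGraph.edgeFinset_card] at h3
  simp only [eulerGenus, Nat.card_eq_fintype_card] at hg
  omega

end Pool.Agent.Results.MP_40718a_co.SurfaceUniversal
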