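import Pool.Agent.P.MP_40718a_co.Wb.All

/-!
Every 2-edge-connected cubic multigraph is covered by a bounded number of perfect matchings.
A multigraph is given by two maps `s t : E → V`, the two ends of an edge; loops and parallel
edges are allowed.
-/

namespace Pool.Agent.Results.MP_40718a_co.WeakBerge

open Finset

variable {V E : Type} [Fintype V] [Fintype E] [DecidableEq V] [DecidableEq E]

/-- the edges with exactly one end in `X` -/
def cut (s t : E → V) (X : Finset V) : Finset E := univ.filter fun e => ¬ (s e ∈ X ↔ t e ∈ X)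

/-- the number of ends at `v` of edges of `F` -/
def deg (s t : E → V) (F : Finset E) (v : V) : ℕ :=
  (F.filter fun e => s e = v).card + (F.filter fun e => t e = v).card

/-- There is a number `K` such that every 2-edge-connected cubic multigraph has `K` perfect
matchings that cover all its edges. -/
theorem result : ∃ K : ℕ,
    ∀ (V E : Type) [Fintype V] [Fintype E] [DecidableEq V] [DecidableEq E] (s t : E → V),
      (∀ v, deg s t univ v = 3) →
      (∀ X : Finset V, X.Nonempty → X ≠ univ → 2 ≤ (cut s t X).card) →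
      ∃ M : Fin K → Finset E, (∀ i v, deg s t (M i) v = 1) ∧ ∀ e, ∃ i, e ∈ M i := by
  obtain ⟨K, h⟩ := Pool.Agent.P.MP_40718a_co.Wb.all_W2
  refine ⟨K, fun V E _ _ _ _ s t h2 h3 => h V E s t ⟨fun e he => ?_, h2⟩ h3⟩
  have h4 := Pool.Agent.P.MP_40718a_co.ABF.handshake (s := s) (t := t) univ {s e}
  rw [sum_singleton, univ_inter, univ_inter] at h4
  have h5 : Pool.Agent.P.MP_40718a_co.ABF.deg s t univ (s e) = 3 := h2 (s e)
  have h6 : 0 < (Pool.Agent.P.MP_40718a_co.ABF.ins s t {s e}).card :=
    card_pos.2 ⟨e, by simp [Pool.Agent.P.MP_40718a_co.ABF.mem_ins, ← he]⟩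
  by_cases h7 : ({s e} : Finset V) = univ
  · have h8 : Pool.Agent.P.MP_40718a_co.ABF.cut s t {s e} = ∅ := by
      rw [h7]; ext f; simp
    rw [h8, card_empty] at h4
    omega
  · have h8 : 2 ≤ (Pool.Agent.P.MP_40718a_co.ABF.cut s t {s e}).card :=
      h3 _ (singleton_nonempty _) h7
    omega

end Pool.Agent.Results.MP_40718a_co.WeakBerge
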